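import Pool.Agent.R537.HD.PolyT

/-!
# The Euclidean Gromov–Hausdorff distance is `∃∀∃ℝ`-hard

See `Pool.Agent.Results.MP_1b4d2d_lc.TranslatedHausdorffComplete` for a sketch; the same instances
work for isometries: if the Hausdorff distance of `T(A)` and `B` is at most `R + ε` for an isometry
`T`, then `T` preserves the directions of the `(x, y)`-space, moves the `(z, h)`-part of the flats
by at most `ε`, and maps `{(0, y, 0, 0)}` onto a flat `{(v, y, c)}` with `|c| ≤ ε`; the limit
`ε → 0` is taken with the compactness of the `x`-block.
-/

namespace Pool.Agent.Results.MP_004e29_lc.GromovHausdorffHard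

open Pool.Agent.NPC Pool.Agent.NPC.ER Pool.Agent.NPC.R537HD

/-- The Euclidean Gromov–Hausdorff distance decision problem for semialgebraic sets is
`∃∀∃ℝ`-hard under polynomial-time many-one reductions. -/
theorem result : EAEHard (lang GHD) := ghd_hard

end Pool.Agent.Results.MP_004e29_lc.GromovHausdorffHard
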